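import Mathlib

/-!
# The numbers `2^a 12^b` are asymptotically dense (multiplicatively)
-/

namespace Pool.Agent.Lib.H61AE

/-- covering argument: if `1 < u^p / v^q ≤ r` then the numbers `u^a v^b w^c` have ratio gaps `≤ r`. -/
lemma cover {x y r : ℝ} (hy : 0 < y) (hxy : y < x) (hr : x / y ≤ r) :
    ∃ K : ℕ, ∀ X : ℝ, y ^ K ≤ X → ∃ j k : ℕ, k ≤ K ∧
      2 ^ j * (x ^ k * y ^ (K - k)) ≤ X ∧ X < r * (2 ^ j * (x ^ k * y ^ (K - k))) := by
  have hx : 0 < x := hy.trans hxy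
  have h1 : 1 < x / y := by rwa [lt_div_iff₀ hy, one_mul]
  obtain ⟨K, hK⟩ := pow_unbounded_of_one_lt (2 : ℝ) h1
  refine ⟨K, ?_⟩
  intro X hX
  have hyK : 0 < y ^ K := by positivity
  have hX1 : 1 ≤ X / y ^ K := by rwa [le_div_iff₀ hyK, one_mul]
  obtain ⟨j, hj1, hj2⟩ := exists_nat_pow_near hX1 (by norm_num : (1 : ℝ) < 2)
  have h2j : (0 : ℝ) < 2 ^ j := by positivity
  have hX2 : 1 ≤ X / y ^ K / 2 ^ j := by rwa [le_div_iff₀ h2j, one_mul]
  obtain ⟨k, hk1, hk2⟩ := exists_nat_pow_near hX2 h1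
  have hX3 : X / y ^ K / 2 ^ j < 2 := by
    rw [div_lt_iff₀ h2j]
    rw [pow_succ] at hj2
    linarith
  have hkK : k < K := by
    by_contra h
    push Not at h
    have : (x / y) ^ K ≤ (x / y) ^ k := pow_le_pow_right₀ h1.le h
    linarith
  have e : (x / y) ^ k * y ^ K = x ^ k * y ^ (K - k) := by
    have : y ^ K = y ^ k * y ^ (K - k) := by
      rw [← pow_add]
      congr 1
      omega
    rw [this, div_pow]
    field_simp
  refine ⟨j, k, hkK.le, ?_, ?_⟩
  · rw [← e]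
    rw [le_div_iff₀ h2j, le_div_iff₀ hyK] at hk1
    linarith
  · rw [← e]
    rw [div_lt_iff₀ h2j, div_lt_iff₀ hyK, pow_succ] at hk2
    have h4 : 0 < (x / y) ^ k * (2 ^ j * y ^ K) := by positivity
    have h5 : (x / y) ^ k * (x / y) * 2 ^ j * y ^ K ≤ r * (2 ^ j * ((x / y) ^ k * y ^ K)) := by
      have : (x / y) ^ k * (x / y) * 2 ^ j * y ^ K = (x / y) * ((x / y) ^ k * (2 ^ j * y ^ K)) := by ring
      rw [this]
      have : r * (2 ^ j * ((x / y) ^ k * y ^ K)) = r * ((x / y) ^ k * (2 ^ j * y ^ K)) := by ring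
      rw [this]
      gcongr
    linarith

lemma log_ratio_irrational : Irrational (Real.log 2 / Real.log 12) := by
  rintro ⟨q, hq⟩
  have h12 : 0 < Real.log 12 := Real.log_pos (by norm_num)
  have h2 : 0 < Real.log 2 := Real.log_pos (by norm_num)
  have hqpos : 0 < q := by
    have : (0 : ℝ) < q := by rw [hq]; positivity
    exact_mod_cast this
  have hnum : 0 < q.num := Rat.num_pos.mpr hqpos
  have hden : 0 < q.den := q.den_pos
  obtain ⟨n, hn⟩ : ∃ n : ℕ, q.num = n := ⟨q.num.toNat, (Int.toNat_of_nonneg hnum.le).symm⟩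
  have hnpos : 0 < n := by
    rw [hn] at hnum
    exact_mod_cast hnum
  have hq' : (q : ℝ) = n / q.den := by
    rw [Rat.cast_def, hn, Int.cast_natCast]
  rw [hq'] at hq
  have hdenr : (0 : ℝ) < q.den := by exact_mod_cast hden
  rw [div_eq_div_iff hdenr.ne' h12.ne'] at hq
  have h3 : Real.log ((12 : ℝ) ^ n) = Real.log ((2 : ℝ) ^ q.den) := by
    rw [Real.log_pow, Real.log_pow]
    linarith
  have h4 : (12 : ℝ) ^ n = (2 : ℝ) ^ q.den := by
    apply Real.log_injOn_pos _ _ h3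
    · exact Set.mem_Ioi.mpr (by positivity)
    · exact Set.mem_Ioi.mpr (by positivity)
  have h5 : (12 : ℕ) ^ n = 2 ^ q.den := by exact_mod_cast h4
  have h6 : 3 ∣ 2 ^ q.den := by
    rw [← h5]
    exact dvd_pow (by norm_num) hnpos.ne'
  have := Nat.Prime.dvd_of_dvd_pow Nat.prime_three h6
  omega

lemma exists_step {δ : ℝ} (hδ : 0 < δ) :
    ∃ p q : ℕ, (12 : ℝ) ^ q < 2 ^ p ∧ (2 : ℝ) ^ p / 12 ^ q ≤ 1 + δ ∨
      (2 : ℝ) ^ p < 12 ^ q ∧ (12 : ℝ) ^ q / 2 ^ p ≤ 1 + δ := by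
  have h12 : 0 < Real.log 12 := Real.log_pos (by norm_num)
  have h2 : 0 < Real.log 2 := Real.log_pos (by norm_num)
  have hd := dense_addSubgroupClosure_pair_iff.mpr log_ratio_irrational
  set ε := min (Real.log (1 + δ)) (Real.log 2) with hε
  have hεpos : 0 < ε := lt_min (Real.log_pos (by linarith)) h2
  obtain ⟨x, hx, hx'⟩ := hd.exists_between hεpos
  rw [SetLike.mem_coe, AddSubgroup.mem_closure_pair] at hx
  obtain ⟨a, b, hab⟩ := hx
  simp only [zsmul_eq_mul] at hab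
  have hlt1 : x < Real.log (1 + δ) := lt_of_lt_of_le hx'.2 (min_le_left _ _)
  have hlt2 : x < Real.log 2 := lt_of_lt_of_le hx'.2 (min_le_right _ _)
  have h122 : Real.log 2 < Real.log 12 := Real.log_lt_log (by norm_num) (by norm_num)
  rcases le_or_gt a 0 with ha | ha
  · rcases le_or_gt b 0 with hb | hb
    · exfalso
      have ha' : (a : ℝ) ≤ 0 := by exact_mod_cast ha
      have hb' : (b : ℝ) ≤ 0 := by exact_mod_cast hb
      nlinarith [hx'.1]
    · obtain ⟨p, hp⟩ : ∃ p : ℕ, a = -(p : ℤ) := ⟨(-a).toNat, by omega⟩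
      obtain ⟨q, hq⟩ : ∃ q : ℕ, b = (q : ℤ) := ⟨b.toNat, by omega⟩
      refine ⟨p, q, Or.inr ?_⟩
      have hxe : x = Real.log (12 ^ q / 2 ^ p) := by
        rw [Real.log_div (by positivity) (by positivity), Real.log_pow, Real.log_pow, ← hab, hp, hq]
        push_cast
        ring
      have hpos : (0 : ℝ) < 12 ^ q / 2 ^ p := by positivity
      constructor
      · have : 0 < Real.log ((12 : ℝ) ^ q / 2 ^ p) := by rw [← hxe]; exact hx'.1
        have h1 : 1 < (12 : ℝ) ^ q / 2 ^ p := (Real.log_pos_iff hpos.le).mp this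
        rwa [lt_div_iff₀ (by positivity), one_mul] at h1
      · apply le_of_lt
        rw [← Real.log_lt_log_iff hpos (by linarith), ← hxe]
        exact hlt1
  · rcases le_or_gt 0 b with hb | hb
    · exfalso
      have ha' : (1 : ℝ) ≤ a := by exact_mod_cast ha
      have hb' : (0 : ℝ) ≤ b := by exact_mod_cast hb
      nlinarith
    · obtain ⟨p, hp⟩ : ∃ p : ℕ, a = (p : ℤ) := ⟨a.toNat, by omega⟩
      obtain ⟨q, hq⟩ : ∃ q : ℕ, b = -(q : ℤ) := ⟨(-b).toNat, by omega⟩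
      refine ⟨p, q, Or.inl ?_⟩
      have hxe : x = Real.log (2 ^ p / 12 ^ q) := by
        rw [Real.log_div (by positivity) (by positivity), Real.log_pow, Real.log_pow, ← hab, hp, hq]
        push_cast
        ring
      have hpos : (0 : ℝ) < 2 ^ p / 12 ^ q := by positivity
      constructor
      · have : 0 < Real.log ((2 : ℝ) ^ p / 12 ^ q) := by rw [← hxe]; exact hx'.1
        have h1 : 1 < (2 : ℝ) ^ p / 12 ^ q := (Real.log_pos_iff hpos.le).mp this
        rwa [lt_div_iff₀ (by positivity), one_mul] at h1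
      · apply le_of_lt
        rw [← Real.log_lt_log_iff hpos (by linarith), ← hxe]
        exact hlt1

/-- For every `δ > 0` all large `X` have some `2^a 12^b` in `(X/(1+δ), X]`. -/
lemma dense_two_twelve {δ : ℝ} (hδ : 0 < δ) :
    ∃ N : ℝ, ∀ X : ℝ, N ≤ X → ∃ a b : ℕ, (2 : ℝ) ^ a * 12 ^ b ≤ X ∧
      X < (1 + δ) * (2 ^ a * 12 ^ b) := by
  obtain ⟨p, q, h | h⟩ := exists_step hδ
  · obtain ⟨K, hK⟩ := cover (by positivity : (0 : ℝ) < 12 ^ q) h.1 h.2
    refine ⟨(12 ^ q) ^ K, fun X hX => ?_⟩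
    obtain ⟨j, k, -, h1, h2⟩ := hK X hX
    refine ⟨j + p * k, q * (K - k), ?_, ?_⟩
    · rw [pow_add, pow_mul, pow_mul]
      linarith
    · rw [pow_add, pow_mul, pow_mul]
      linarith
  · obtain ⟨K, hK⟩ := cover (by positivity : (0 : ℝ) < 2 ^ p) h.1 h.2
    refine ⟨(2 ^ p) ^ K, fun X hX => ?_⟩
    obtain ⟨j, k, -, h1, h2⟩ := hK X hX
    refine ⟨j + p * (K - k), q * k, ?_, ?_⟩
    · rw [pow_add, pow_mul, pow_mul]
      linarith
    · rw [pow_add, pow_mul, pow_mul]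
      linarith

end Pool.Agent.Lib.H61AE
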