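import Mathlib

/-!
# Two mutually unbiased cross-polytopes (MP_5bdf33_co)

For a Hadamard matrix `H` of order `m`, the `2m` points `± e_i / √2` at height `t` and the `2m`
points `± h_j / √2` at height `-t`, where `h_j` is the `j`-th row of `H` divided by `√m` and
`4 t^2 = 1/√m`, form an almost-equidistant set of `4 m` points.
-/

open scoped BigOperators

namespace Pool.Agent.Lib.H61AE

/-- An entrywise `± 1` matrix with orthogonal rows. -/
def IsHad (m : ℕ) (H : Matrix (Fin m) (Fin m) ℤ) : Prop :=
  (∀ i j, H i j = 1 ∨ H i j = -1) ∧ H * H.transpose = (m : ℤ) • (1 : Matrix (Fin m) (Fin m) ℤ)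

/-- `m` is the order of a Hadamard matrix. -/
def HadOrder (m : ℕ) : Prop := ∃ H : Matrix (Fin m) (Fin m) ℤ, IsHad m H

section geometry

variable {V : Type*} [NormedAddCommGroup V] [InnerProductSpace ℝ V]

lemma dist_of_inner {p q : V} {a b c r : ℝ} (hp : inner ℝ p p = a) (hq : inner ℝ q q = b)
    (hpq : inner ℝ p q = c) (h : a + b - 2 * c = r) : dist p q = Real.sqrt r := by
  rw [dist_eq_norm, ← Real.sqrt_sq (norm_nonneg (p - q)), norm_sub_sq_real,
    ← real_inner_self_eq_norm_sq, ← real_inner_self_eq_norm_sq, hp, hq, hpq]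
  congr 1
  linarith

/-- the sign `± 1` -/
def sg (s : Bool) : ℝ := if s then 1 else -1

lemma sg_mul_self (s : Bool) : sg s * sg s = 1 := by cases s <;> simp [sg]

lemma sg_cases (s : Bool) : sg s = 1 ∨ sg s = -1 := by cases s <;> simp [sg]

lemma sg_mul (s s' : Bool) : sg s * sg s' = if s = s' then 1 else -1 := by
  cases s <;> cases s' <;> simp [sg]

variable {m : ℕ} (b : Fin (m + 1) → V) (H : Matrix (Fin m) (Fin m) ℤ)

/-- the `j`-th normalised row of `H` -/
noncomputable def hv (j : Fin m) : V :=
  (1 / Real.sqrt m) • ∑ i : Fin m, (H j i : ℝ) • b i.castSucc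

/-- the points -/
noncomputable def pt (t : ℝ) (v : Bool × Fin m × Bool) : V :=
  if v.1 then (sg v.2.2 / Real.sqrt 2) • b v.2.1.castSucc + t • b (Fin.last m)
  else (sg v.2.2 / Real.sqrt 2) • hv b H v.2.1 - t • b (Fin.last m)

variable {b} {H}

lemma inner_ee (hb : Orthonormal ℝ b) (i j : Fin m) :
    inner ℝ (b i.castSucc) (b j.castSucc) = if i = j then (1 : ℝ) else 0 := by
  rw [orthonormal_iff_ite.mp hb]
  simp [Fin.castSucc_inj]

lemma inner_ew (hb : Orthonormal ℝ b) (i : Fin m) :
    inner ℝ (b i.castSucc) (b (Fin.last m)) = (0 : ℝ) := by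
  rw [orthonormal_iff_ite.mp hb]
  simp [(Fin.castSucc_lt_last i).ne]

lemma inner_we (hb : Orthonormal ℝ b) (i : Fin m) :
    inner ℝ (b (Fin.last m)) (b i.castSucc) = (0 : ℝ) := by
  rw [orthonormal_iff_ite.mp hb]
  simp [(Fin.castSucc_lt_last i).ne']

lemma inner_ww (hb : Orthonormal ℝ b) :
    inner ℝ (b (Fin.last m)) (b (Fin.last m)) = (1 : ℝ) := by
  rw [orthonormal_iff_ite.mp hb]
  simp

lemma inner_eh (hb : Orthonormal ℝ b) (i j : Fin m) :
    inner ℝ (b i.castSucc) (hv b H j) = (H j i : ℝ) / Real.sqrt m := by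
  unfold hv
  rw [inner_smul_right, inner_sum]
  have : ∀ k : Fin m, inner ℝ (b i.castSucc) ((H j k : ℝ) • b k.castSucc) =
      if i = k then (H j k : ℝ) else 0 := by
    intro k
    rw [inner_smul_right, inner_ee hb]
    split_ifs <;> simp
  simp only [this]
  rw [Finset.sum_ite_eq]
  simp
  ring

lemma inner_hw (hb : Orthonormal ℝ b) (j : Fin m) :
    inner ℝ (hv b H j) (b (Fin.last m)) = (0 : ℝ) := by
  unfold hv
  rw [inner_smul_left, sum_inner]
  have : ∀ k : Fin m, inner ℝ ((H j k : ℝ) • b k.castSucc) (b (Fin.last m)) = (0 : ℝ) := by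
    intro k
    rw [inner_smul_left, inner_ew hb]
    simp
  simp [this]

lemma inner_hh (hb : Orthonormal ℝ b) (hH : IsHad m H) (i j : Fin m) :
    inner ℝ (hv b H i) (hv b H j) = if i = j then (1 : ℝ) else 0 := by
  have hm : (0 : ℝ) < m := by
    have : 0 < m := lt_of_le_of_lt (Nat.zero_le _) i.isLt
    exact_mod_cast this
  have h1 : inner ℝ (hv b H i) (hv b H j) =
      (1 / Real.sqrt m) * ∑ k : Fin m, (H i k : ℝ) * ((H j k : ℝ) / Real.sqrt m) := by
    conv_lhs => unfold hv
    rw [inner_smul_left, sum_inner]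
    congr 1
    apply Finset.sum_congr rfl
    intro k _
    rw [inner_smul_left]
    have := inner_eh (H := H) hb k j
    unfold hv at this
    rw [this]
    simp
  have h2 : ∑ k : Fin m, (H i k : ℝ) * (H j k : ℝ) = if i = j then (m : ℝ) else 0 := by
    have h3 := congrFun (congrFun hH.2 i) j
    rw [Matrix.mul_apply] at h3
    simp only [Matrix.transpose_apply, Matrix.smul_apply, Matrix.one_apply, smul_eq_mul] at h3
    have h4 : ((∑ k : Fin m, H i k * H j k : ℤ) : ℝ) = ((m : ℤ) * (if i = j then 1 else 0) : ℤ) := by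
      rw [h3]
    push_cast at h4
    rw [h4]
    split_ifs <;> simp
  rw [h1]
  have h5 : ∑ k : Fin m, (H i k : ℝ) * ((H j k : ℝ) / Real.sqrt m) =
      (∑ k : Fin m, (H i k : ℝ) * (H j k : ℝ)) / Real.sqrt m := by
    rw [Finset.sum_div]
    apply Finset.sum_congr rfl
    intro k _
    ring
  rw [h5, h2]
  split_ifs
  · have hs : Real.sqrt m * Real.sqrt m = m := Real.mul_self_sqrt hm.le
    have hs' : Real.sqrt m ≠ 0 := (Real.sqrt_pos.mpr hm).ne'
    field_simp
    nlinarith
  · simp

lemma half_sq (x y : ℝ) : x / Real.sqrt 2 * (y / Real.sqrt 2) = x * y / 2 := by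
  have : Real.sqrt 2 * Real.sqrt 2 = 2 := Real.mul_self_sqrt (by norm_num)
  rw [div_mul_div_comm, this]

lemma inner_pt_tt (hb : Orthonormal ℝ b) (t : ℝ) (i j : Fin m) (s s' : Bool) :
    inner ℝ (pt b H t (true, i, s)) (pt b H t (true, j, s')) =
      sg s * sg s' / 2 * (if i = j then 1 else 0) + t ^ 2 := by
  simp only [pt, if_true]
  rw [inner_add_left, inner_add_right, inner_add_right]
  simp only [inner_smul_left, inner_smul_right, inner_ee hb, inner_ew hb, inner_we hb, inner_ww hb]
  simp only [conj_trivial]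
  rw [← half_sq]
  ring

lemma inner_pt_ff (hb : Orthonormal ℝ b) (hH : IsHad m H) (t : ℝ) (i j : Fin m) (s s' : Bool) :
    inner ℝ (pt b H t (false, i, s)) (pt b H t (false, j, s')) =
      sg s * sg s' / 2 * (if i = j then 1 else 0) + t ^ 2 := by
  have hwh : inner ℝ (b (Fin.last m)) (hv b H j) = (0 : ℝ) := by
    rw [real_inner_comm, inner_hw hb]
  simp only [pt, Bool.false_eq_true, if_false]
  rw [inner_sub_left, inner_sub_right, inner_sub_right]
  simp only [inner_smul_left, inner_smul_right, inner_hh hb hH, inner_hw hb, hwh, inner_ww hb]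
  simp only [conj_trivial]
  rw [← half_sq]
  ring

lemma inner_pt_tf (hb : Orthonormal ℝ b) (t : ℝ) (i j : Fin m) (s s' : Bool) :
    inner ℝ (pt b H t (true, i, s)) (pt b H t (false, j, s')) =
      sg s * sg s' / 2 * ((H j i : ℝ) / Real.sqrt m) - t ^ 2 := by
  have hwh : inner ℝ (b (Fin.last m)) (hv b H j) = (0 : ℝ) := by
    rw [real_inner_comm, inner_hw hb]
  simp only [pt, Bool.false_eq_true, if_false, if_true]
  rw [inner_add_left, inner_sub_right, inner_sub_right]
  simp only [inner_smul_left, inner_smul_right, inner_eh hb, inner_ew hb, hwh, inner_ww hb]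
  simp only [conj_trivial]
  rw [← half_sq]
  ring

/-- distances inside one cross-polytope -/
lemma dist_same (hb : Orthonormal ℝ b) (hH : IsHad m H) (t : ℝ) (u : Bool) (i j : Fin m)
    (s s' : Bool) :
    dist (pt b H t (u, i, s)) (pt b H t (u, j, s')) =
      if i = j then (if s = s' then 0 else Real.sqrt 2) else 1 := by
  have h1 : ∀ (i j : Fin m) (s s' : Bool), inner ℝ (pt b H t (u, i, s)) (pt b H t (u, j, s')) =
      sg s * sg s' / 2 * (if i = j then 1 else 0) + t ^ 2 := by
    intro i j s s'
    cases u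
    · exact inner_pt_ff hb hH t i j s s'
    · exact inner_pt_tt hb t i j s s'
  by_cases hij : i = j
  · subst hij
    simp only [if_true]
    by_cases hs : s = s'
    · subst hs
      simp
    · rw [if_neg hs]
      apply dist_of_inner (h1 i i s s) (h1 i i s' s') (h1 i i s s')
      rw [sg_mul_self, sg_mul_self, sg_mul, if_neg hs]
      simp
      ring
  · rw [if_neg hij, ← Real.sqrt_one]
    apply dist_of_inner (h1 i i s s) (h1 j j s' s') (h1 i j s s')
    rw [sg_mul_self, sg_mul_self, if_neg hij]
    simp
    ring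

/-- distances between the two cross-polytopes -/
lemma dist_diff (hb : Orthonormal ℝ b) (hH : IsHad m H) {t : ℝ} (ht : 4 * t ^ 2 = 1 / Real.sqrt m)
    (i j : Fin m) (s s' : Bool) :
    dist (pt b H t (true, i, s)) (pt b H t (false, j, s')) =
      Real.sqrt (1 + (1 - sg s * sg s' * (H j i : ℝ)) / Real.sqrt m) := by
  apply dist_of_inner (inner_pt_tt hb t i i s s) (inner_pt_ff hb hH t j j s' s')
    (inner_pt_tf hb t i j s s')
  rw [sg_mul_self, sg_mul_self]
  simp only [if_true]
  have : (1 - sg s * sg s' * (H j i : ℝ)) / Real.sqrt m =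
      4 * t ^ 2 - sg s * sg s' * (H j i : ℝ) / Real.sqrt m := by
    rw [ht]
    ring
  rw [this]
  ring

/-- A cross distance is `1` or `√(1 + 2/√m)`; it is `1` for exactly one of two opposite signs. -/
lemma dist_diff_one (hb : Orthonormal ℝ b) (hH : IsHad m H) {t : ℝ}
    (ht : 4 * t ^ 2 = 1 / Real.sqrt m) (i j : Fin m) {s s' : Bool}
    (h : sg s * sg s' * (H j i : ℝ) = 1) :
    dist (pt b H t (true, i, s)) (pt b H t (false, j, s')) = 1 := by
  rw [dist_diff hb hH ht, h]
  simp

lemma sg_sg_H (hH : IsHad m H) (i j : Fin m) (s s' : Bool) :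
    sg s * sg s' * (H j i : ℝ) = 1 ∨ sg s * sg s' * (H j i : ℝ) = -1 := by
  rcases hH.1 j i with h | h <;> rcases sg_cases s with h1 | h1 <;> rcases sg_cases s' with h2 | h2 <;>
    rw [h, h1, h2] <;> norm_num

lemma dist_diff_pos (hb : Orthonormal ℝ b) (hH : IsHad m H) {t : ℝ}
    (ht : 4 * t ^ 2 = 1 / Real.sqrt m) (i j : Fin m) (s s' : Bool) :
    1 ≤ dist (pt b H t (true, i, s)) (pt b H t (false, j, s')) := by
  rw [dist_diff hb hH ht]
  apply Real.le_sqrt_of_sq_le
  have hs : 0 ≤ Real.sqrt m := Real.sqrt_nonneg _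
  rcases sg_sg_H hH i j s s' with h | h <;> rw [h]
  · simp
  · have : 0 ≤ (1 - (-1 : ℝ)) / Real.sqrt m := by positivity
    linarith

lemma dist_diff_le (hb : Orthonormal ℝ b) (hH : IsHad m H) {t : ℝ}
    (ht : 4 * t ^ 2 = 1 / Real.sqrt m) (hm : 4 ≤ m) (i j : Fin m) (s s' : Bool) :
    dist (pt b H t (true, i, s)) (pt b H t (false, j, s')) ≤ Real.sqrt 2 := by
  rw [dist_diff hb hH ht]
  apply Real.sqrt_le_sqrt
  have hm4 : (4 : ℝ) ≤ m := by exact_mod_cast hm
  have hs : 2 ≤ Real.sqrt m := by
    apply Real.le_sqrt_of_sq_le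
    linarith
  rcases sg_sg_H hH i j s s' with h | h <;> rw [h]
  · norm_num
  · have : (1 - (-1 : ℝ)) / Real.sqrt m ≤ 1 := by
      rw [div_le_one (by linarith)]
      linarith
    linarith

/-- among the two distances from a point of one polytope to an antipodal pair of the other, one is `1` -/
lemma one_of_pair (hb : Orthonormal ℝ b) (hH : IsHad m H) {t : ℝ}
    (ht : 4 * t ^ 2 = 1 / Real.sqrt m) (i j : Fin m) {s s' : Bool} (hs : s ≠ s') (r : Bool) :
    (dist (pt b H t (true, i, s)) (pt b H t (false, j, r)) = 1 ∨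
      dist (pt b H t (true, i, s')) (pt b H t (false, j, r)) = 1) ∧
    (dist (pt b H t (true, i, r)) (pt b H t (false, j, s)) = 1 ∨
      dist (pt b H t (true, i, r)) (pt b H t (false, j, s')) = 1) := by
  have hss : sg s' = - sg s := by
    cases s <;> cases s' <;> simp_all [sg]
  constructor
  · rcases sg_sg_H hH i j s r with h | h
    · exact Or.inl (dist_diff_one hb hH ht i j h)
    · right
      apply dist_diff_one hb hH ht i j
      rw [hss]
      linarith
  · rcases sg_sg_H hH i j r s with h | h
    · exact Or.inl (dist_diff_one hb hH ht i j h)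
    · right
      apply dist_diff_one hb hH ht i j
      rw [hss]
      linarith

lemma pt_injective (hb : Orthonormal ℝ b) (hH : IsHad m H) {t : ℝ}
    (ht : 4 * t ^ 2 = 1 / Real.sqrt m) : Function.Injective (pt b H t) := by
  rintro ⟨u, i, s⟩ ⟨u', j, s'⟩ h
  have hd : dist (pt b H t (u, i, s)) (pt b H t (u', j, s')) = 0 := by rw [h, dist_self]
  by_cases hu : u = u'
  · subst hu
    rw [dist_same hb hH] at hd
    split_ifs at hd with h1 h2
    · rw [h1, h2]
    · exact absurd hd (by positivity)
    · exact absurd hd (by norm_num)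
  · exfalso
    cases u <;> cases u'
    · exact hu rfl
    · rw [dist_comm] at hd
      have := dist_diff_pos hb hH ht j i s' s
      linarith
    · have := dist_diff_pos hb hH ht i j s s'
      linarith
    · exact hu rfl

lemma bool_three : ∀ a b c : Bool, a ≠ b → a ≠ c → b = c := by decide

/-- the almost-equidistant property on the index set -/
lemma ae_index (hb : Orthonormal ℝ b) (hH : IsHad m H) {t : ℝ}
    (ht : 4 * t ^ 2 = 1 / Real.sqrt m) (x y z : Bool × Fin m × Bool) (hxy : x ≠ y) (hyz : y ≠ z)
    (hxz : x ≠ z) :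
    dist (pt b H t x) (pt b H t y) = 1 ∨ dist (pt b H t y) (pt b H t z) = 1 ∨
      dist (pt b H t x) (pt b H t z) = 1 := by
  -- two points of one polytope with different indices are at distance one
  have hsame : ∀ (u : Bool) (i j : Fin m) (s s' : Bool), i ≠ j →
      dist (pt b H t (u, i, s)) (pt b H t (u, j, s')) = 1 := by
    intro u i j s s' hij
    rw [dist_same hb hH, if_neg hij]
  -- the case of two points in one polytope and one in the other
  have hmix : ∀ (u u' : Bool) (i j k : Fin m) (s s' r : Bool), u ≠ u' →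
      (u, i, s) ≠ ((u, j, s') : Bool × Fin m × Bool) →
      dist (pt b H t (u, i, s)) (pt b H t (u, j, s')) = 1 ∨
      dist (pt b H t (u, i, s)) (pt b H t (u', k, r)) = 1 ∨
      dist (pt b H t (u, j, s')) (pt b H t (u', k, r)) = 1 := by
    intro u u' i j k s s' r hu hne
    by_cases hij : i = j
    · subst hij
      have hs : s ≠ s' := by
        rintro rfl
        exact hne rfl
      right
      cases u <;> cases u'
      · exact absurd rfl hu
      · have := (one_of_pair hb hH ht k i hs r).2
        rw [dist_comm, dist_comm (pt b H t (false, i, s'))]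
        exact this
      · exact (one_of_pair hb hH ht i k hs r).1
      · exact absurd rfl hu
    · exact Or.inl (hsame u i j s s' hij)
  obtain ⟨u, i, s⟩ := x
  obtain ⟨v, j, r⟩ := y
  obtain ⟨w, k, q⟩ := z
  by_cases huv : u = v
  · subst huv
    by_cases huw : u = w
    · subst huw
      -- all three in one polytope
      by_cases hij : i = j
      · subst hij
        by_cases hik : i = k
        · subst hik
          have h1 : s ≠ r := fun h => hxy (by rw [h])
          have h2 : r ≠ q := fun h => hyz (by rw [h])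
          have h3 : s ≠ q := fun h => hxz (by rw [h])
          exact absurd (bool_three s r q h1 h3) h2
        · right; left
          exact hsame u i k r q hik
      · left
        exact hsame u i j s r hij
    · rcases hmix u w i j k s r q huw hxy with h | h | h
      · exact Or.inl h
      · exact Or.inr (Or.inr h)
      · exact Or.inr (Or.inl h)
  · by_cases huw : u = w
    · subst huw
      rcases hmix u v i k j s q r huv hxz with h | h | h
      · exact Or.inr (Or.inr h)
      · exact Or.inl h
      · right; left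
        rw [dist_comm]
        exact h
    · have hvw : v = w := bool_three u v w huv huw
      subst hvw
      rcases hmix v u j k i r q s (Ne.symm huv) hyz with h | h | h
      · exact Or.inr (Or.inl h)
      · left
        rw [dist_comm]
        exact h
      · right; right
        rw [dist_comm]
        exact h

end geometry

end Pool.Agent.Lib.H61AE
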