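import Pool.Agent.Lib.H61AE.Geo

/-!
# Hadamard matrices of order `2^a 12^b`
-/

open scoped BigOperators

namespace Pool.Agent.Lib.H61AE

/-- the Paley matrix of order 12 -/
def H12 : Matrix (Fin 12) (Fin 12) ℤ := fun i j =>
  if i.val = 0 then 1 else if j.val = 0 then -1 else if i.val = j.val then 1
  else if (i.val + 11 - j.val) % 11 ∈ ([1, 3, 4, 5, 9] : List ℕ) then 1 else -1

lemma H12_sum : ∀ i j : Fin 12, ∑ k : Fin 12, H12 i k * H12 j k = if i = j then 12 else 0 := by
  decide +kernel

lemma had_twelve : HadOrder 12 := by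
  refine ⟨H12, ?_, ?_⟩
  · intro i j
    unfold H12
    split_ifs <;> simp
  · ext i j
    rw [Matrix.mul_apply]
    simp only [Matrix.transpose_apply, H12_sum, Matrix.smul_apply, Matrix.one_apply, smul_eq_mul]
    split_ifs <;> simp

/-- the matrix of order 2 -/
def H2 : Matrix (Fin 2) (Fin 2) ℤ := fun i j => if i.val * j.val = 1 then -1 else 1

lemma H2_sum : ∀ i j : Fin 2, ∑ k : Fin 2, H2 i k * H2 j k = if i = j then 2 else 0 := by
  decide +kernel

lemma had_two : HadOrder 2 := by
  refine ⟨H2, ?_, ?_⟩
  · intro i j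
    unfold H2
    split_ifs <;> simp
  · ext i j
    rw [Matrix.mul_apply]
    simp only [Matrix.transpose_apply, H2_sum, Matrix.smul_apply, Matrix.one_apply, smul_eq_mul]
    split_ifs <;> simp

lemma had_one : HadOrder 1 := by
  refine ⟨1, ?_, ?_⟩
  · intro i j
    left
    rw [Subsingleton.elim i j, Matrix.one_apply_eq]
  · simp

lemma had_mul {m n : ℕ} (h1 : HadOrder m) (h2 : HadOrder n) : HadOrder (m * n) := by
  obtain ⟨A, hA, hA'⟩ := h1
  obtain ⟨B, hB, hB'⟩ := h2
  refine ⟨(Matrix.kroneckerMap (fun x y => x * y) A B).submatrix finProdFinEquiv.symm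
    finProdFinEquiv.symm, ?_, ?_⟩
  · intro i j
    simp only [Matrix.submatrix_apply, Matrix.kroneckerMap_apply]
    rcases hA (finProdFinEquiv.symm i).1 (finProdFinEquiv.symm j).1 with h | h <;>
      rcases hB (finProdFinEquiv.symm i).2 (finProdFinEquiv.symm j).2 with h' | h' <;>
      rw [h, h'] <;> simp
  · rw [Matrix.transpose_submatrix, Matrix.submatrix_mul_equiv, ← Matrix.kroneckerMap_transpose]
    have := Matrix.mul_kronecker_mul A A.transpose B B.transpose
    rw [← this, hA', hB']
    ext i j
    simp only [Matrix.submatrix_apply, Matrix.kroneckerMap_apply, Matrix.smul_apply,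
      Matrix.one_apply, smul_eq_mul]
    by_cases hij : i = j
    · subst hij
      simp
    · have : ¬ ((finProdFinEquiv.symm i).1 = (finProdFinEquiv.symm j).1 ∧
          (finProdFinEquiv.symm i).2 = (finProdFinEquiv.symm j).2) := by
        rintro ⟨h, h'⟩
        exact hij (finProdFinEquiv.symm.injective (Prod.ext h h'))
      rw [if_neg hij]
      by_cases h : (finProdFinEquiv.symm i).1 = (finProdFinEquiv.symm j).1
      · have h' : ¬ (finProdFinEquiv.symm i).2 = (finProdFinEquiv.symm j).2 := fun h' => this ⟨h, h'⟩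
        rw [if_neg h']
        simp
      · rw [if_neg h]
        simp

lemma had_pow {m : ℕ} (h : HadOrder m) (k : ℕ) : HadOrder (m ^ k) := by
  induction k with
  | zero => simpa using had_one
  | succ k ih =>
    rw [pow_succ]
    exact had_mul ih h

lemma had_two_twelve (a b : ℕ) : HadOrder (2 ^ a * 12 ^ b) :=
  had_mul (had_pow had_two a) (had_pow had_twelve b)

end Pool.Agent.Lib.H61AE
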